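import Pool.Agent.Helper72.WC.Defs

/-!
# Project WC: the criterion for `k`-connectivity
-/

set_option autoImplicit false

namespace Pool.Agent.Helper72.WC

open Finset

variable {n : ℕ}

theorem h28_adj {C : Finset (Sym2 (Fin n))} {x y : Fin n} : (gr C).Adj x y ↔ s(x, y) ∈ C ∧ x ≠ y := by
  rw [gr, SimpleGraph.fromEdgeSet_adj, Finset.mem_coe]

/-- The graph without the vertices of `S`. -/
def h28_H (C : Finset (Sym2 (Fin n))) (S : Finset (Fin n)) : SimpleGraph {v : Fin n | v ∉ S} :=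
  (gr C).induce {v | v ∉ S}

theorem h28_step {C : Finset (Sym2 (Fin n))} {S : Finset (Fin n)} {x y : Fin n} (hx : x ∉ S)
    (hy : y ∉ S) (h : s(x, y) ∈ C) : (h28_H C S).Reachable ⟨x, hx⟩ ⟨y, hy⟩ := by
  by_cases hxy : x = y
  · subst hxy
    exact SimpleGraph.Reachable.refl _
  · exact SimpleGraph.Adj.reachable (h28_adj.2 ⟨h, hxy⟩)

theorem h28_reach {C : Finset (Sym2 (Fin n))} {S Y : Finset (Fin n)} (hY : Conn C Y)
    (hS : ∀ y ∈ Y, y ∉ S) {x y : Fin n} (hx : x ∈ Y) (hy : y ∈ Y) :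
    (h28_H C S).Reachable ⟨x, hS x hx⟩ ⟨y, hS y hy⟩ := by
  classical
  by_contra hcon
  let T : Finset (Fin n) := Y.filter fun z => ∃ h : z ∉ S, (h28_H C S).Reachable ⟨x, hS x hx⟩ ⟨z, h⟩
  obtain ⟨u, hu, w, hw, huw⟩ := hY.2 T (Finset.filter_subset _ _)
    ⟨x, Finset.mem_filter.2 ⟨hx, hS x hx, SimpleGraph.Reachable.refl _⟩⟩
    ⟨y, Finset.mem_sdiff.2 ⟨hy, fun h => hcon (Finset.mem_filter.1 h).2.2⟩⟩
  obtain ⟨_, hu', hu''⟩ := Finset.mem_filter.1 hu
  obtain ⟨hw1, hw2⟩ := Finset.mem_sdiff.1 hw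
  exact hw2 (Finset.mem_filter.2 ⟨hw1, hS w hw1, hu''.trans (h28_step hu' (hS w hw1) huw)⟩)

theorem criterion {k m0 K0 : ℕ} (hk : 1 ≤ k) (hkn : k < n) {C : Finset (Sym2 (Fin n))}
    (hS : ∀ A : Finset (Fin n), A.Nonempty → A.card ≤ m0 →
      k ≤ ((A.biUnion (nb C)) \ A).card) {f : Fin n → Fin n}
    (hconn : ∀ v, Conn C (cl f (f v))) (hK0 : ∀ v, (cl f (f v)).card ≤ K0)
    (hm0 : (k - 1) * K0 ≤ m0) {X : Fin k → Finset (Fin n)} (hX : ∀ j, Conn C (X j))
    (hdisj : ∀ i j, i ≠ j → Disjoint (X i) (X j))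
    (hatt : ∀ v j, cl f (f v) ⊆ X j ∨ ∃ u ∈ cl f (f v), ∃ y ∈ X j, s(u, y) ∈ C) :
    KConn k (gr C) := by
  classical
  refine ⟨hkn, fun S hSk => ?_⟩
  -- some `X j` does not meet `S`
  obtain ⟨j, hj⟩ : ∃ j : Fin k, ∀ x ∈ X j, x ∉ S := by
    by_contra hcon
    push Not at hcon
    choose g hg hg' using hcon
    have hinj : Function.Injective g := by
      intro i j hij
      by_contra hne
      exact Finset.disjoint_left.1 (hdisj i j hne) (hg i) (hij ▸ hg j)
    have h1 : (univ.image g : Finset (Fin n)).card ≤ S.card := by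
      apply Finset.card_le_card
      intro x hx
      obtain ⟨i, _, rfl⟩ := Finset.mem_image.1 hx
      exact hg' i
    rw [Finset.card_image_of_injective _ hinj, Finset.card_univ, Fintype.card_fin] at h1
    omega
  obtain ⟨x0, hx0⟩ := (hX j).1
  have hx0S : x0 ∉ S := hj x0 hx0
  let A : Finset (Fin n) := univ.filter fun v => ∃ h : v ∉ S,
    ¬ (h28_H C S).Reachable ⟨v, h⟩ ⟨x0, hx0S⟩
  have hA : ¬ A.Nonempty := by
    intro hne
    have hcov : ∀ a ∈ A, ∃ u ∈ S, a ∈ cl f (f u) := by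
      intro a ha
      obtain ⟨_, haS, har⟩ := Finset.mem_filter.1 ha
      by_contra hcon
      push Not at hcon
      have haa : a ∈ cl f (f a) := Finset.mem_filter.2 ⟨Finset.mem_univ _, rfl⟩
      have hdis : ∀ u ∈ cl f (f a), u ∉ S := by
        intro u hu huS
        refine hcon u huS (Finset.mem_filter.2 ⟨Finset.mem_univ _, ?_⟩)
        exact ((Finset.mem_filter.1 hu).2).symm
      rcases hatt a j with h | ⟨u, hu, y, hy, huy⟩
      · exact har (h28_reach (hX j) hj (h haa) hx0)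
      · refine har ?_
        exact (h28_reach (hconn a) hdis haa hu).trans
          ((h28_step (hdis u hu) (hj y hy) huy).trans (h28_reach (hX j) hj hy hx0))
    have hcard : A.card ≤ m0 := by
      have h1 : A ⊆ S.biUnion fun u => cl f (f u) := by
        intro a ha
        obtain ⟨u, hu, hau⟩ := hcov a ha
        exact Finset.mem_biUnion.2 ⟨u, hu, hau⟩
      calc A.card ≤ (S.biUnion fun u => cl f (f u)).card := Finset.card_le_card h1
        _ ≤ S.card * K0 := Finset.card_biUnion_le_card_mul _ _ _ fun u _ => hK0 u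
        _ ≤ (k - 1) * K0 := Nat.mul_le_mul_right _ (by omega)
        _ ≤ m0 := hm0
    have h2 := hS A hne hcard
    have h3 : (A.biUnion (nb C)) \ A ⊆ S := by
      intro y hy
      obtain ⟨hy1, hy2⟩ := Finset.mem_sdiff.1 hy
      obtain ⟨a, ha, hay⟩ := Finset.mem_biUnion.1 hy1
      obtain ⟨_, haS, har⟩ := Finset.mem_filter.1 ha
      by_contra hyS
      have hay' : s(a, y) ∈ C := (Finset.mem_filter.1 hay).2
      refine hy2 (Finset.mem_filter.2 ⟨Finset.mem_univ _, hyS, fun h => har ?_⟩)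
      exact (h28_step haS hyS hay').trans h
    have h4 := Finset.card_le_card h3
    omega
  have hall : ∀ v (h : v ∉ S), (h28_H C S).Reachable ⟨v, h⟩ ⟨x0, hx0S⟩ := by
    intro v h
    by_contra hcon
    exact hA ⟨v, Finset.mem_filter.2 ⟨Finset.mem_univ _, h, hcon⟩⟩
  have : Nonempty {v : Fin n | v ∉ S} := ⟨⟨x0, hx0S⟩⟩
  show (h28_H C S).Connected
  exact ⟨fun u v => (hall u.1 u.2).trans (hall v.1 v.2).symm⟩

theorem h28_gr_mono {C C' : Finset (Sym2 (Fin n))} (h : C ⊆ C') : gr C ≤ gr C' := by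
  intro x y hxy
  rw [h28_adj] at hxy ⊢
  exact ⟨h hxy.1, hxy.2⟩

theorem KConn.mono {k : ℕ} {C C' : Finset (Sym2 (Fin n))} (h : C ⊆ C') (hK : KConn k (gr C)) :
    KConn k (gr C') :=
  ⟨hK.1, fun S hS => (hK.2 S hS).mono fun _ _ hxy => h28_gr_mono h hxy⟩

theorem MinDeg.mono {k : ℕ} {C C' : Finset (Sym2 (Fin n))} (h : C ⊆ C')
    (hK : MinDeg k (gr C)) : MinDeg k (gr C') := by
  intro v
  refine (hK v).trans (Set.ncard_le_ncard (fun y hy => ?_) (Set.toFinite _))
  exact h28_gr_mono h hy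

theorem KConn.minDeg {k : ℕ} {G : SimpleGraph (Fin n)} (hK : KConn k G) : MinDeg k G := by
  classical
  intro v
  by_contra hcon
  let S : Finset (Fin n) := (Set.toFinite (G.neighborSet v)).toFinset
  have hSc : S.card < k := by
    rw [← Set.ncard_eq_toFinset_card _ (Set.toFinite (G.neighborSet v))]
    omega
  have hmem : ∀ x, x ∈ S ↔ G.Adj v x := by
    intro x
    rw [Set.Finite.mem_toFinset]
    rfl
  have hvS : v ∉ S := by
    rw [hmem]
    exact G.loopless.irrefl v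
  obtain ⟨w, hw⟩ : ∃ w, w ∉ insert v S := by
    by_contra h
    push Not at h
    have h1 : (univ : Finset (Fin n)) ⊆ insert v S := fun w _ => h w
    have h2 := Finset.card_le_card h1
    rw [Finset.card_univ, Fintype.card_fin] at h2
    have h3 := Finset.card_insert_le v S
    have h4 := hK.1
    omega
  have hwv : w ≠ v := fun h => hw (h ▸ Finset.mem_insert_self _ _)
  have hwS : w ∉ S := fun h => hw (Finset.mem_insert_of_mem h)
  have hcon2 := hK.2 S hSc
  obtain ⟨p⟩ := hcon2.preconnected ⟨v, hvS⟩ ⟨w, hwS⟩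
  cases p with
  | nil => exact hwv rfl
  | @cons _ x _ h _ => exact x.2 ((hmem x.1).2 h)

end Pool.Agent.Helper72.WC
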